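import Pool.Agent.Run7.h192.Murre.Desc
import Pool.Agent.Run7.h192.Murre.MDefs

/-!
# Chow–Künneth decompositions from a splitting in the middle

Let `𝒱` be a class of smooth projective varieties over a field `k` which is closed under products
(for example all of them), with Chow groups `C` (rational coefficients) and a Weil cohomology theory
`W`. A Chow–Künneth decomposition `π` is triangular if `π b ∘ γ ∘ π a = 0` for all `a < b` and all
correspondences `γ` of degree zero. A splitting of `X` at level `j` is a decomposition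
`h(X) = A ⊕ B` with `H(A) = H^(≤ j)(X)`, `H(B) = H^(> j)(X)` and `Hom(A, B) = 0`; it splits `X` in
the middle if `j = dim X`.

1. Let `dim X ≤ dim Y`. If `Y × X` splits in the middle, then `X` has a self-dual triangular
   Chow–Künneth decomposition. If moreover the only idempotent correspondence of degree zero of
   `Y × X` which acts as zero on cohomology is `0`, then the filtrations `F^k CH^i(X)` are
   independent of the decomposition.
2. All varieties have triangular Chow–Künneth decompositions if and only if, for arbitrarily large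
   `n`, all varieties of dimension `n` split in the middle.
3. All varieties have Chow–Künneth decompositions and all filtrations are independent of the
   decomposition (Murre's conjectures (A) and (C)), if and only if, for arbitrarily large `n`, all
   varieties `X` of dimension `n` split in the middle, and the only idempotent in `CH^n(X × X)` which
   acts as zero on cohomology is `0`.
-/

open Pool.Agent.H914 Pool.Agent.R903 Pool.Agent.Run7.h192.Murre

universe u v w

namespace Pool.Agent.Results.MP_638e8a_ag.MiddleSplitting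

theorem result {k : Type u} [Field k] {𝒱 : VarClass k} {C : ChowTheory.{u, v} 𝒱}
    (W : WeilTheory.{u, v, w} C) (hP : C.Polarized) :
    (∀ X Y : 𝒱.Obj, X.dim ≤ Y.dim → SplitsInMiddle W (Y.prod X) →
      HasSelfDualCK W X ∧ (W.NoPhantoms (Y.prod X) → W.MurreC X)) ∧
    ((∃ c : 𝒱.Obj, c.dim = 1) →
      ((∀ X : 𝒱.Obj, HasTriangularCK W X) ↔ InLargeDimensions (SplitsInMiddle W)) ∧
      ((∀ X : 𝒱.Obj, W.HasCK X ∧ W.MurreC X) ↔
        InLargeDimensions fun X => W.NoPhantoms X ∧ SplitsInMiddle W X)) := by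
  have h1 : ∀ X Y : 𝒱.Obj, X.dim ≤ Y.dim → SplitsInMiddle W (Y.prod X) →
      HasSelfDualCK W X ∧ (W.NoPhantoms (Y.prod X) → W.MurreC X) := by
    rintro X Y hd ⟨t, ht⟩
    obtain ⟨π, h2, h3, h4⟩ := exists_selfDual' (W := W) (X := X)
      fun j hj => splitting_of_middle hP X Y hd ht hj
    refine ⟨⟨π, h2, h3, h4⟩, fun hN => ?_⟩
    obtain ⟨q, α, β, F⟩ := exists_factor_prod hP X Y (i := 0) (Nat.zero_le _)
    exact (triangular_of_one (F.noPhantoms hN) h2 h3).murreC
  refine ⟨h1, fun hc => ⟨⟨fun h N => ⟨N, le_rfl, fun X hX => ?_⟩, fun h X => ?_⟩,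
    ⟨fun h N => ⟨N, le_rfl, fun X hX => ?_⟩, fun h X => ?_⟩⟩⟩
  · obtain ⟨π, hπ, hT⟩ := h X
    exact splitting_of_triangular hπ hT _
  · obtain ⟨n, hn, hs⟩ := h (2 * X.dim + 1)
    obtain ⟨Y, hY⟩ := exists_dim hc (n - X.dim) (by omega)
    have hZ : (Y.prod X).dim = n := by rw [VarClass.Obj.dim_prod, hY]; omega
    obtain ⟨⟨π, h2, h3, _⟩, _⟩ := h1 X Y (by omega) (hs (Y.prod X) hZ)
    exact ⟨π, h2, h3⟩
  · obtain ⟨c, hc⟩ := hc
    have hT : ∀ X : 𝒱.Obj, W.Triangular X := fun X =>
      (((h (X.prod X)).2 X.dim 0).murreB0 hP).triangular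
    refine ⟨noPhantoms_of_prod hP c (noPhantoms_of_triangular ?_ (h _).1 (hT _)), ?_⟩
    · rw [VarClass.Obj.dim_prod]
      omega
    · obtain ⟨π, hπ⟩ := (h X).1
      exact splitting_of_triangular hπ (fun a b hab γ hγ => hT X π π hπ hπ a b hab γ hγ) _
  · obtain ⟨n, hn, hs⟩ := h (2 * X.dim + 1)
    obtain ⟨Y, hY⟩ := exists_dim hc (n - X.dim) (by omega)
    have hZ : (Y.prod X).dim = n := by rw [VarClass.Obj.dim_prod, hY]; omega
    obtain ⟨hN, ht⟩ := hs (Y.prod X) hZ
    obtain ⟨⟨π, h2, _⟩, h3⟩ := h1 X Y (by omega) ht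
    exact ⟨⟨π, h2⟩, h3 hN⟩

end Pool.Agent.Results.MP_638e8a_ag.MiddleSplitting
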