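import Pool.Agent.Run7.h541.NumCrit

/-!
# Chow–Künneth decompositions: a numerical criterion outside the middle degree

Let `W` be a Weil cohomology theory over a field `k` of any characteristic. A Chow motive `(Z, p)` is
tame (`IsTame`) if the ideal of its numerically trivial endomorphisms is nilpotent; motives which are
finite-dimensional in the sense of Kimura are tame, for example the motives of abelian varieties and
of products of curves. The tame ideal `tameIdeal C X` of `CH^(dim X)(X × X)` consists of the
correspondences which factor through finite direct sums of twists of tame Chow motives.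

Let `X` be ANY smooth projective variety, `d = dim X`. The following are equivalent.

(i) `X` has a Chow–Künneth decomposition (modulo rational equivalence) `ρ` such that for each
`j < d` the motive `(X, ρ j)` or the motive `(X, ρ (2d - j))` is tame.
(ii) For each `j < d` there is a cycle `ϖ` on `X × X` which acts on the cohomology of `X` as the
projector to `H^j(X)` or to `H^(2d-j)(X)` and which is NUMERICALLY equivalent to a correspondence in
the tame ideal.
(iii) For each finite group `G` of isometries of the motive of `X` there is a self-dual
Chow–Künneth decomposition of `X` which commutes with `G` and whose summands `h^j(X)`, `j ≠ d`, are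
tame.

If the Künneth components of `X` are algebraic, for example if `k` is a finite field (Katz–Messing),
then (ii) is a condition on the numerical motive of `X` alone: for `j < d` the numerical motive
`h^j_num(X)` is a direct factor of a finite sum of twists of numerical motives of tame Chow motives.
It holds for instance if `h^j_num(X)`, `j < d`, are of abelian type, whatever `h^d_num(X)` is. It is
not assumed that homological and numerical equivalence agree on `X × X`, or that the motive of `X` is
finite-dimensional, and there is no condition on the middle degree.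

The proof: if `ϖ` is a Künneth projector for `H^l(X)` and `t` an element of the tame ideal with
`t - ϖ` numerically trivial, let `s = ϖ ∘ t ∘ ϖ`. Then `n = s - ϖ` is numerically trivial and acts as
zero on `H^i(X)`, `i ≠ l`; by the trace formula all powers of `n` have trace zero on `H^l(X)`, so that
`n` is nilpotent on cohomology, and `1 - (1 - s)^N` is an element of the tame ideal which acts as the
projector to `H^l(X)`. The theorem of `MP_8a7054_ag.TameOutsideTheMiddle` (helper43) applies.
-/

open CategoryTheory Pool.Agent.R903 Pool.Agent.Run7.h192.Murre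
open Pool.Agent.H914 hiding IsProjector

universe u v w

namespace Pool.Agent.Results.MP_638e8a_ag.NumericalCriterion

open Run7.h43.SD

/-- **A numerical criterion for Chow–Künneth decompositions.** -/
theorem result {k : Type u} [Field k] {𝒱 : VarClass k} {C : ChowTheory.{u, v} 𝒱}
    (W : WeilTheory.{u, v, w} C) (X : 𝒱.Obj) :
    List.TFAE [
      ∃ ρ : ℕ → C.CH (X.prod X), W.IsCK X ρ ∧
        ∀ j < X.dim, IsTame C X (ρ j) ∨ IsTame C X (ρ (2 * X.dim - j)),
      ∀ j < X.dim, ∃ t ∈ tameIdeal C X, ∃ ϖ : C.CH (X.prod X), IsDegreeZero C ϖ ∧
        (IsProjector (W.gr X) j (W.act ϖ) ∨ IsProjector (W.gr X) (2 * X.dim - j) (W.act ϖ)) ∧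
        NumTrivial C (t - ϖ),
      ∀ (G : Type) [Group G] [Finite G] (g : G → C.CH (X.prod X)), IsIsometryGroup C X g →
        ∃ π : ℕ → C.CH (X.prod X), IsTameCK W X π ∧ SelfDual C π ∧ ∀ j, Invariant C g (π j)] := by
  tfae_have 1 → 2 := fun ⟨ρ, h, ht⟩ j hj => by
    rcases ht j hj with h1 | h1
    · exact ⟨ρ j, h1.mem_tameIdeal, ρ j, h1.mem, Or.inl (h.proj j),
        fun δ => by rw [sub_self, zero_mul, map_zero]⟩
    · exact ⟨ρ (2 * X.dim - j), h1.mem_tameIdeal, ρ (2 * X.dim - j), h1.mem, Or.inr (h.proj _),
        fun δ => by rw [sub_self, zero_mul, map_zero]⟩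
  tfae_have 2 → 3 := fun h G _ _ g hg => by
    refine exists_tame (W := W) (fun j hj => ?_) hg
    obtain ⟨t, ht, ϖ, h1, h2 | h2, h3⟩ := h j hj
    · obtain ⟨ε, hε, hε'⟩ := Run7.h541.NC.exists_of_num ht h1 h2 h3
      exact ⟨ε, hε, Or.inl hε'⟩
    · obtain ⟨ε, hε, hε'⟩ := Run7.h541.NC.exists_of_num ht h1 h2 h3
      exact ⟨ε, hε, Or.inr hε'⟩
  tfae_have 3 → 1 := by
    intro h
    obtain ⟨π, h1, -, -⟩ := h Unit (fun _ => C.diagC X)
      ⟨fun _ => C.diagC_mem X, rfl, fun _ _ => C.comp_diagC _, fun _ => C.transp_diagC X⟩
    exact ⟨π, h1.1, fun j hj => Or.inl (h1.2 j (by omega))⟩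
  tfae_finish

end Pool.Agent.Results.MP_638e8a_ag.NumericalCriterion
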