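import Pool.Agent.Run7.h634.Mur.FD3

/-!
# Chow-Kunneth decompositions: summands of motives of surfaces and finite-dimensional motives
-/

set_option autoImplicit false

open CategoryTheory AlgebraicGeometry

universe u v w

namespace Pool.Agent.Results.MP_638e8a_ag.SurfacesAndFiniteDimensional

open Pool.Agent.H914 Pool.Agent.H914.VarClass Pool.Agent.H914.VarClass.Obj Pool.Agent.W492.BB
  Pool.Agent.W550.Corr Pool.Agent.TH133 Pool.Agent.X308.S Pool.Agent.Run7.H634.Mur

variable {k : Type u} [Field k] {𝒱 : VarClass k} {C : TheoryData.{u, v, 0} 𝒱 ℚ}
  [hC : IsChowProj C] {K : Type w} [Field K]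
  {H : WeilTheoryData.{u, v, w} C K} [hH : IsWeilProj H]

/-- Let `X` be a variety, and let `N` run through the varieties which have a Chow-Kunneth
decomposition and whose self-correspondences are algebraic over `ℚ`, and nilpotent if they are
homologically trivial (abelian varieties, products of curves, ...).

Every direct summand `(X, p)` of the motive of `X` whose projector `p` is a sum of correspondences
through twists of motives of surfaces and of varieties `N` has a Chow-Kunneth decomposition. In
particular `X` has one if its motive is a direct summand of a finite sum of twists of motives of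
surfaces and of varieties `N`. -/
theorem result (hS : SurfaceProperties H) (X : 𝒱.Obj) :
    (∀ p : C.A (X.prod X), C.comp p p = p → IsDominated H p →
      ∃ π : ℕ → C.A (X.prod X), IsCKOf H p π) ∧
    (IsDominated H (dg C X) → ∃ π : ℕ → C.A (X.prod X), IsCK H X π) :=
  ⟨fun _ hpp hp => dec_of_mem hS hpp hp, ck_of_mem hS⟩

end Pool.Agent.Results.MP_638e8a_ag.SurfacesAndFiniteDimensional
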